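import Pool.Agent.W429.TCI.Stmts
import Pool.Agent.H999R3.AltCore

set_option autoImplicit false
set_option linter.unusedSectionVars false

/-! `(ZN D) D = 0` in alternative algebras. -/

namespace Pool.Agent.W366.TCI

section core

open Pool.Agent.H999R3

variable {B : Type} [NonUnitalNonAssocRing B]

/-- The commutator. -/
def cm (n a : B) : B := n * a - a * n

variable (h : IsAlt B)
include h

theorem cm_nuc {n : B} (hn : Nuc n) (a : B) : Nuc (cm n a) := by
  intro x y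
  unfold cm
  rw [as_sub1, hn.as_mul h, hn.as_mul' h, sub_self]

theorem cm_as {n : B} (hn : Nuc n) (x y z : B) : cm n (as x y z) = 0 := by
  unfold cm; rw [hn.comm_as h, sub_self]

theorem cm_mul {n : B} (hn : Nuc n) (a b : B) : cm n (a * b) = cm n a * b + a * cm n b := by
  unfold cm
  rw [sub_mul, mul_sub, hn.assoc1, hn.assoc2 h, hn.assoc3 h]; abel

theorem h_kf {n : B} (hn : Nuc n) (a b c d : B) :
    cm n b * as a c d = kf (n * a) b c d - n * kf a b c d := by
  have e1 : as (n * a * b) c d = n * as (a * b) c d := by rw [hn.assoc1, hn.as_mul h]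
  have e2 : b * as (n * a) c d = (b * n) * as a c d := by rw [hn.as_mul h, hn.assoc2 h]
  have e3 : as b c d * (n * a) = n * (as b c d * a) := by
    rw [← hn.assoc2 h, ← hn.comm_as h, hn.assoc1]
  have e4 : n * (b * as a c d) = (n * b) * as a c d := (hn.assoc1 _ _).symm
  unfold kf cm
  rw [e1, e2, e3, mul_sub, mul_sub, e4, sub_mul]; abel

theorem h_13 {n : B} (hn : Nuc n) (a b c d : B) :
    cm n b * as a c d = - (cm n c * as a b d) := by
  rw [h_kf h hn, h_kf h hn, kf_swap23 h (n * a) b c d, kf_swap23 h a b c d, mul_neg]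
  abel

theorem h_12 {n : B} (hn : Nuc n) (a b c d : B) :
    cm n a * as b c d = - (cm n b * as a c d) := by
  rw [as_12 h b c d, mul_neg, h_13 h hn c a b d, as_12 h c a d, mul_neg, neg_neg]

theorem h_as {n : B} (hn : Nuc n) (a x y z c d : B) : cm n a * as (as x y z) c d = 0 := by
  rw [h_12 h hn, cm_as h hn, zero_mul, neg_zero]

theorem h_as3 {n : B} (hn : Nuc n) (a x y z c d : B) : cm n a * as c d (as x y z) = 0 := by
  rw [← as_cyc h (as x y z) c d, h_as h hn]

theorem P_pull {n : B} (hn : Nuc n) (a x y z e : B) :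
    as x y z * (cm n a * e) = cm n a * (as x y z * e) := by
  have hm := cm_nuc h hn a
  rw [← hm.assoc1, hm.comm_as h, hm.assoc2 h]

theorem P1 {n : B} (hn : Nuc n) (a x y z e : B) :
    cm n a * (as x y z * e) = - (cm n x * (as a y z * e)) := by
  rw [← (cm_nuc h hn a).assoc1, h_12 h hn a x, neg_mul, (cm_nuc h hn x).assoc1]

theorem P2 {n : B} (hn : Nuc n) (a x y z p q r : B) :
    cm n a * (as x y z * as p q r) = - (cm n p * (as x y z * as a q r)) := by
  rw [← P_pull h hn, h_12 h hn a p, mul_neg, P_pull h hn]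

theorem P3 {n : B} (hn : Nuc n) (a x y z p q r : B) :
    cm n a * (as x y z * as p q r) = - (cm n a * (as p y z * as x q r)) := by
  rw [P1 h hn a x, P2 h hn x a, P1 h hn p a, neg_neg]

theorem P4 {n : B} (hn : Nuc n) (a x y z p q r : B) :
    cm n a * (as x y z * as p q r) = - (cm n a * (as p q r * as x y z)) := by
  rw [P3 h hn, as_cyc h p y z, as_cyc h x q r, P3 h hn, as_cyc h q z p, as_cyc h y r x,
    P3 h hn, as_cyc h r p q, as_cyc h z x y, neg_neg]

theorem key {n : B} (hn : Nuc n) (no2 : ∀ b : B, b + b = 0 → b = 0) (a x y z p q r : B) :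
    cm n a * (as x y z * as p q r) = 0 := by
  apply no2
  have hp := cm_nuc h hn p
  have ha := cm_nuc h hn a
  have e1 : cm n p * as (as x y z * a) q r = - (cm n a * (as x y z * as p q r)) := by
    rw [h_12 h hn, cm_mul h hn, cm_as h hn, zero_mul, zero_add, ha.assoc2 h, P_pull h hn]
  have e2 : cm n p * as (a * as x y z) q r = - (cm n a * (as x y z * as p q r)) := by
    rw [h_12 h hn, cm_mul h hn, cm_as h hn, mul_zero, add_zero, ha.assoc1]
  have e5 : cm n p * (a * as (as x y z) q r) = 0 := by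
    have e : cm n p * a = cm n (p * a) - p * cm n a := by rw [cm_mul h hn]; abel
    rw [← hp.assoc1, e, sub_mul, h_as h hn, ha.assoc2 h, h_as h hn, mul_zero, sub_zero]
  have e6 : cm n p * (as (as x y z) q r * a) = 0 := by
    rw [← hp.assoc1, h_as h hn, zero_mul]
  rw [as_mul1, mul_add, mul_add, e5, zero_add] at e1
  rw [as_mul1, mul_add, mul_add, e6, add_zero, kf_swap12 h a, mul_neg] at e2
  have e8 := P4 h hn p a q r x y z
  have e9 : cm n p * (as a q r * as x y z) + cm n p * (as x y z * as a q r) =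
      - (cm n a * (as x y z * as p q r)) + - (cm n a * (as x y z * as p q r)) := by
    calc _ = (cm n p * (as a q r * as x y z) + cm n p * kf (as x y z) a q r) +
          (cm n p * (as x y z * as a q r) + - (cm n p * kf (as x y z) a q r)) := by abel
      _ = _ := by rw [e1, e2]
  rw [e8, neg_add_cancel] at e9
  rw [← neg_add, eq_comm, neg_eq_zero] at e9
  exact e9

end core

section sub

open Pool.Agent.H999R3
open Pool.Agent.Helper805.Nuc.Free (IsIdeal ZN Dideal nucleus)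

variable (Φ : Type) [CommRing Φ] (A : Type) [NonUnitalNonAssocRing A] [Module Φ A]
  [IsScalarTower Φ A A] [SMulCommClass Φ A A]

variable {Φ A} in
theorem span_mr {S : Set A} {I : Submodule Φ A} (t : A) (hS : ∀ z ∈ S, z * t ∈ I) :
    ∀ z ∈ Submodule.span Φ S, z * t ∈ I := by
  have h1 : Submodule.span Φ S ≤ I.comap (LinearMap.mulRight Φ t) := Submodule.span_le.2 hS
  exact fun z hz => h1 hz

variable {Φ A} in
theorem span_ml {S : Set A} {I : Submodule Φ A} (t : A) (hS : ∀ z ∈ S, t * z ∈ I) :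
    ∀ z ∈ Submodule.span Φ S, t * z ∈ I := by
  have h1 : Submodule.span Φ S ≤ I.comap (LinearMap.mulLeft Φ t) := Submodule.span_le.2 hS
  exact fun z hz => h1 hz

/-- The span of the elements `ζ` and `ζ s`, `ζ` an associator. -/
def DS : Submodule Φ A :=
  Submodule.span Φ {z | ∃ x y w : A, z = as x y w ∨ ∃ s, z = as x y w * s}

theorem DS_as (x y w : A) : as x y w ∈ DS Φ A := Submodule.subset_span ⟨x, y, w, Or.inl rfl⟩

theorem DS_as_mul (x y w s : A) : as x y w * s ∈ DS Φ A :=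
  Submodule.subset_span ⟨x, y, w, Or.inr ⟨s, rfl⟩⟩

theorem DS_right (t : A) : ∀ z ∈ DS Φ A, z * t ∈ DS Φ A := by
  refine span_mr t ?_
  rintro z ⟨x, y, w, rfl | ⟨s, rfl⟩⟩
  · exact DS_as_mul Φ A x y w t
  · have e : as x y w * s * t = as (as x y w) s t + as x y w * (s * t) := by
      rw [as.eq_1 (as x y w)]; abel
    rw [e]
    exact (DS Φ A).add_mem (DS_as Φ A _ _ _) (DS_as_mul Φ A _ _ _ _)

theorem DS_left (t : A) : ∀ z ∈ DS Φ A, t * z ∈ DS Φ A := by
  have h1 : ∀ x y w : A, t * as x y w ∈ DS Φ A := by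
    intro x y w
    have e : t * as x y w = as (t * x) y w - as t (x * y) w + as t x (y * w) - as t x y * w := by
      rw [teich]; abel
    rw [e]
    exact (DS Φ A).sub_mem ((DS Φ A).add_mem ((DS Φ A).sub_mem (DS_as Φ A _ _ _)
      (DS_as Φ A _ _ _)) (DS_as Φ A _ _ _)) (DS_as_mul Φ A _ _ _ _)
  refine span_ml t ?_
  rintro z ⟨x, y, w, rfl | ⟨s, rfl⟩⟩
  · exact h1 x y w
  · have e : t * (as x y w * s) = (t * as x y w) * s - as t (as x y w) s := by
      rw [as.eq_1 t]; abel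
    rw [e]
    exact (DS Φ A).sub_mem (DS_right Φ A s _ (h1 x y w)) (DS_as Φ A _ _ _)

theorem Dideal_le : Dideal Φ A ≤ DS Φ A := by
  refine sInf_le ⟨fun a x hx => ⟨DS_left Φ A a x hx, DS_right Φ A a x hx⟩, ?_⟩
  rintro z ⟨a, b, c, rfl⟩
  exact DS_as Φ A a b c

/-- The elements annihilated by all `[n, a]`. -/
def SS (n : A) : Submodule Φ A where
  carrier := {z | ∀ a, cm n a * z = 0}
  add_mem' := by
    intro x y hx hy a
    rw [mul_add, hx a, hy a, add_zero]
  zero_mem' := fun a => mul_zero _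
  smul_mem' := by
    intro r x hx a
    rw [mul_smul_comm, hx a, smul_zero]

theorem mem_SS {n z : A} : z ∈ SS Φ A n ↔ ∀ a, cm n a * z = 0 := Iff.rfl

variable {A} (h : IsAlt A)
include h

theorem SS_right {n : A} (hn : Nuc n) (t z : A) (hz : z ∈ SS Φ A n) : z * t ∈ SS Φ A n := by
  intro a
  rw [← (cm_nuc h hn a).assoc1, hz a, zero_mul]

theorem SS_left {n : A} (hn : Nuc n) (t z : A) (hz : z ∈ SS Φ A n) : t * z ∈ SS Φ A n := by
  intro a
  have e : cm n a * t = cm n (a * t) - a * cm n t := by rw [cm_mul h hn]; abel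
  rw [← (cm_nuc h hn a).assoc1, e, sub_mul, hz, (cm_nuc h hn t).assoc2 h, hz, mul_zero, sub_zero]

theorem as_SS {n : A} (hn : Nuc n) (x y w c d : A) : as (as x y w) c d ∈ SS Φ A n :=
  fun a => h_as h hn a x y w c d

variable (no2 : ∀ b : A, b + b = 0 → b = 0)
include no2

theorem DD1 {n : A} (hn : Nuc n) (x y w : A) : ∀ d ∈ DS Φ A, as x y w * d ∈ SS Φ A n := by
  refine span_ml (as x y w) ?_
  rintro z ⟨p, q, r, rfl | ⟨t, rfl⟩⟩
  · exact fun a => key h hn no2 a x y w p q r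
  · have e : as x y w * (as p q r * t) = (as x y w * as p q r) * t -
        as (as x y w) (as p q r) t := by
      rw [as.eq_1 (as x y w) (as p q r)]; abel
    rw [e]
    exact (SS Φ A n).sub_mem (SS_right Φ h hn t _ fun a => key h hn no2 a x y w p q r)
      (as_SS Φ h hn _ _ _ _ _)

theorem DD {n : A} (hn : Nuc n) (d' : A) (hd' : d' ∈ DS Φ A) :
    ∀ d ∈ DS Φ A, d * d' ∈ SS Φ A n := by
  refine span_mr d' ?_
  rintro z ⟨x, y, w, rfl | ⟨s, rfl⟩⟩
  · exact DD1 Φ h no2 hn x y w d' hd'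
  · have h1 : ∀ p q r : A, (as x y w * s) * as p q r ∈ SS Φ A n := by
      intro p q r
      have e : (as x y w * s) * as p q r = as x y w * (s * as p q r) +
          as (as x y w) s (as p q r) := by
        rw [as.eq_1 (as x y w) s]; abel
      rw [e]
      exact (SS Φ A n).add_mem (DD1 Φ h no2 hn x y w _ (DS_left Φ A s _ (DS_as Φ A p q r)))
        (as_SS Φ h hn _ _ _ _ _)
    revert d'
    refine span_ml (as x y w * s) ?_
    rintro z ⟨p, q, r, rfl | ⟨t, rfl⟩⟩
    · exact h1 p q r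
    · have e : (as x y w * s) * (as p q r * t) = ((as x y w * s) * as p q r) * t -
          as (as p q r) t (as x y w * s) := by
        rw [← as_cyc h (as x y w * s), as.eq_1 (as x y w * s)]; abel
      rw [e]
      exact (SS Φ A n).sub_mem (SS_right Φ h hn t _ (h1 p q r)) (as_SS Φ h hn _ _ _ _ _)

omit h no2 in
variable (A) in
/-- The span of the elements `m` and `m t`, `m = [n, a]`. -/
def ZS : Submodule Φ A :=
  Submodule.span Φ {z | ∃ n a : A, Nuc n ∧ (z = cm n a ∨ ∃ t, z = cm n a * t)}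

omit h no2 in
theorem ZS_cm {n : A} (hn : Nuc n) (a : A) : cm n a ∈ ZS Φ A :=
  Submodule.subset_span ⟨n, a, hn, Or.inl rfl⟩

omit h no2 in
theorem ZS_cm_mul {n : A} (hn : Nuc n) (a t : A) : cm n a * t ∈ ZS Φ A :=
  Submodule.subset_span ⟨n, a, hn, Or.inr ⟨t, rfl⟩⟩

omit no2 in
theorem ZS_right (t : A) : ∀ z ∈ ZS Φ A, z * t ∈ ZS Φ A := by
  refine span_mr t ?_
  rintro z ⟨n, a, hn, rfl | ⟨s, rfl⟩⟩
  · exact ZS_cm_mul Φ hn a t
  · rw [(cm_nuc h hn a).assoc1]
    exact ZS_cm_mul Φ hn a _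

omit no2 in
theorem ZS_left (t : A) : ∀ z ∈ ZS Φ A, t * z ∈ ZS Φ A := by
  have h1 : ∀ n a : A, Nuc n → t * cm n a ∈ ZS Φ A := by
    intro n a hn
    have e : t * cm n a = cm n a * t - cm (cm n a) t := by
      rw [cm.eq_1 (cm n a)]; abel
    rw [e]
    exact (ZS Φ A).sub_mem (ZS_cm_mul Φ hn a t) (ZS_cm Φ (cm_nuc h hn a) t)
  refine span_ml t ?_
  rintro z ⟨n, a, hn, rfl | ⟨s, rfl⟩⟩
  · exact h1 n a hn
  · rw [← (cm_nuc h hn a).assoc2 h]
    exact ZS_right Φ h s _ (h1 n a hn)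

omit no2 in
theorem ZN_le : ZN Φ A ≤ ZS Φ A := by
  refine sInf_le ⟨fun a x hx => ⟨ZS_left Φ h a x hx, ZS_right Φ h a x hx⟩, ?_⟩
  rintro z ⟨n, hn, t, rfl⟩
  exact ZS_cm Φ (n := n) (fun a b => (hn a b).1) t

omit h no2 in
variable (A) in
/-- The span of the elements `m d`. -/
def YS : Submodule Φ A :=
  Submodule.span Φ {z | ∃ n a d : A, Nuc n ∧ d ∈ DS Φ A ∧ z = cm n a * d}

omit h no2 in
theorem YS_mem {n : A} (hn : Nuc n) (a : A) {d : A} (hd : d ∈ DS Φ A) : cm n a * d ∈ YS Φ A :=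
  Submodule.subset_span ⟨n, a, d, hn, hd, rfl⟩

omit no2 in
theorem YS_right (t : A) : ∀ z ∈ YS Φ A, z * t ∈ YS Φ A := by
  refine span_mr t ?_
  rintro z ⟨n, a, d, hn, hd, rfl⟩
  rw [(cm_nuc h hn a).assoc1]
  exact YS_mem Φ hn a (DS_right Φ A t d hd)

omit no2 in
theorem ZD (d : A) (hd : d ∈ DS Φ A) : ∀ z ∈ ZS Φ A, z * d ∈ YS Φ A := by
  refine span_mr d ?_
  rintro z ⟨n, a, hn, rfl | ⟨s, rfl⟩⟩
  · exact YS_mem Φ hn a hd
  · rw [(cm_nuc h hn a).assoc1]
    exact YS_mem Φ hn a (DS_left Φ A s d hd)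

omit no2 in
theorem D_cm {n : A} (hn : Nuc n) (a : A) : ∀ d ∈ DS Φ A, d * cm n a ∈ YS Φ A := by
  have hm := cm_nuc h hn a
  refine span_mr (cm n a) ?_
  rintro z ⟨x, y, w, rfl | ⟨s, rfl⟩⟩
  · rw [← hm.comm_as h]
    exact YS_mem Φ hn a (DS_as Φ A _ _ _)
  · have e : s * cm n a = cm n a * s - cm (cm n a) s := by
      rw [cm.eq_1 (cm n a)]; abel
    rw [hm.assoc3 h, e, mul_sub, P_pull h hn, ← (cm_nuc h hm s).comm_as h]
    exact (YS Φ A).sub_mem (YS_mem Φ hn a (DS_as_mul Φ A _ _ _ _))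
      (YS_mem Φ hm s (DS_as Φ A _ _ _))

omit no2 in
theorem DZ (d : A) (hd : d ∈ DS Φ A) : ∀ z ∈ ZS Φ A, d * z ∈ YS Φ A := by
  refine span_ml d ?_
  rintro z ⟨n, a, hn, rfl | ⟨s, rfl⟩⟩
  · exact D_cm Φ h hn a d hd
  · rw [← (cm_nuc h hn a).assoc2 h]
    exact YS_right Φ h s _ (D_cm Φ h hn a d hd)

theorem YD (d : A) (hd : d ∈ DS Φ A) : ∀ z ∈ YS Φ A, z * d ∈ (⊥ : Submodule Φ A) := by
  refine span_mr d ?_
  rintro z ⟨n, a, d', hn, hd', rfl⟩
  rw [(cm_nuc h hn a).assoc1, Submodule.mem_bot]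
  exact DD Φ h no2 hn d hd d' hd' a

theorem DY (d : A) (hd : d ∈ DS Φ A) : ∀ z ∈ YS Φ A, d * z ∈ (⊥ : Submodule Φ A) := by
  refine span_ml d ?_
  rintro z ⟨n, a, d', hn, hd', rfl⟩
  rw [← (cm_nuc h hn a).assoc2 h]
  exact YD Φ h no2 d' hd' _ (D_cm Φ h hn a d hd)

end sub

open Pool.Agent.W429.TCI in
theorem l1 : S_L1 := by
  intro Φ _ A _ _ _ _ hA no2
  have h : Pool.Agent.H999R3.IsAlt A := fun x y => ⟨hA.left x y, hA.right x y⟩
  rw [eq_bot_iff]
  refine Submodule.span_le.2 ?_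
  rintro z ⟨i, hi, j, hj, hz⟩
  have hi' : i ∈ YS Φ A := by
    refine Submodule.span_le.2 ?_ hi
    rintro z ⟨i, hi, j, hj, rfl | rfl⟩
    · exact ZD Φ h j (Dideal_le Φ A hj) i (ZN_le Φ h hi)
    · exact DZ Φ h j (Dideal_le Φ A hj) i (ZN_le Φ h hi)
  rcases hz with rfl | rfl
  · exact YD Φ h no2 j (Dideal_le Φ A hj) i hi'
  · exact DY Φ h no2 j (Dideal_le Φ A hj) i hi'

end Pool.Agent.W366.TCI
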